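import Mathlib

set_option autoImplicit false

/-!
# An explicit one-parameter rank condenser

For linearly independent rows `C : Fin d → (Fin n → F)` the `d × d` polynomial matrix
`C * diag(X^i) * (i+1)^j` has non-zero determinant.
-/

namespace Pool.Agent.H53.Edm

open Matrix Polynomial Finset

variable {F : Type*} [Field F]

/-- distinct nodes: a vanishing combination of at most `d` Vandermonde rows of length `d` is trivial -/
lemma vandermonde_rows [CharZero F] {n d : ℕ} (I : Finset (Fin n)) (hI : I.card ≤ d)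
    (c : Fin n → F) (h : ∀ j < d, ∑ i ∈ I, c i * ((i : ℕ) + 1 : F) ^ j = 0) :
    ∀ i ∈ I, c i = 0 := by
  classical
  let e := I.equivFin
  have hinj : Function.Injective (fun a : Fin I.card => (((e.symm a : Fin n) : ℕ) + 1 : F)) := by
    intro a b hab
    have h1 : (((e.symm a : Fin n) : ℕ) : F) = (((e.symm b : Fin n) : ℕ) : F) := by
      simpa using hab
    have h2 : ((e.symm a : Fin n) : ℕ) = ((e.symm b : Fin n) : ℕ) := by exact_mod_cast h1
    exact e.symm.injective (Subtype.ext (Fin.ext h2))
  have hz := eq_zero_of_forall_pow_sum_mul_pow_eq_zero (R := F)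
    (f := fun a : Fin I.card => (((e.symm a : Fin n) : ℕ) + 1 : F))
    (v := fun a => c (e.symm a)) hinj (by
      intro j
      have := h j.1 (lt_of_lt_of_le j.2 hI)
      rw [← Finset.sum_coe_sort I (fun i => c i * ((i : ℕ) + 1 : F) ^ j.1)] at this
      rw [← this]
      exact Equiv.sum_comp e.symm (fun x : I => c x * (((x : Fin n) : ℕ) + 1 : F) ^ (j : ℕ)))
  intro i hi
  have := congrFun hz (e ⟨i, hi⟩)
  simpa using this

/-- the polynomial matrix of the condenser -/
noncomputable def condMat {n d : ℕ} (Cm : Matrix (Fin d) (Fin n) F) : Matrix (Fin d) (Fin d) F[X] :=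
  Matrix.of fun b j => ∑ i : Fin n, Polynomial.C (Cm b i) * X ^ (i : ℕ) *
    Polynomial.C (((i : ℕ) + 1 : F) ^ (j : ℕ))

lemma condMat_det_ne_zero [CharZero F] {n d : ℕ} (Cm : Matrix (Fin d) (Fin n) F)
    (hC : LinearIndependent F Cm.row) : (condMat Cm).det ≠ 0 := by
  classical
  intro hdet
  obtain ⟨f, hf0, hf⟩ := (Matrix.exists_vecMul_eq_zero_iff (M := condMat Cm)).2 hdet
  -- the combination
  set w : Fin n → F[X] := fun i => ∑ b, f b * Polynomial.C (Cm b i) with hw
  have hwcoef : ∀ i e, (w i).coeff e = ∑ b, (f b).coeff e * Cm b i := by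
    intro i e
    simp [hw, Polynomial.finsetSum_coeff]
  have hrel : ∀ j : Fin d, ∑ i : Fin n, w i * X ^ (i : ℕ) *
      Polynomial.C (((i : ℕ) + 1 : F) ^ (j : ℕ)) = 0 := by
    intro j
    have h1 := congrFun hf j
    simp only [Matrix.vecMul, dotProduct, condMat, Matrix.of_apply, Pi.zero_apply] at h1
    rw [← h1]
    simp only [hw, Finset.sum_mul, Finset.mul_sum]
    rw [Finset.sum_comm]
    refine Finset.sum_congr rfl fun b _ => Finset.sum_congr rfl fun i _ => by ring
  -- w is non zero
  have hwne : ∃ i, w i ≠ 0 := by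
    by_contra hall
    push Not at hall
    apply hf0
    funext b
    ext e
    have h1 : ∑ b, (f b).coeff e • Cm.row b = 0 := by
      funext i
      have := hwcoef i e
      rw [hall i] at this
      simpa [Finset.sum_apply, Matrix.row] using this.symm
    have := Fintype.linearIndependent_iff.1 hC _ h1 b
    simpa using this
  obtain ⟨i1, hi1⟩ := hwne
  set S : Finset (Fin n) := Finset.univ.filter fun i => w i ≠ 0 with hS
  have hSne : S.Nonempty := ⟨i1, by simp [hS, hi1]⟩
  set N : ℕ := S.sup' hSne fun i => (w i).natDegree + (i : ℕ) with hN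
  have hNle : ∀ i, w i ≠ 0 → (w i).natDegree + (i : ℕ) ≤ N := by
    intro i hi
    exact Finset.le_sup' (fun i : Fin n => (w i).natDegree + (i : ℕ)) (by simp [hS, hi])
  obtain ⟨i2, hi2S, hi2⟩ := Finset.exists_mem_eq_sup' hSne fun i : Fin n => (w i).natDegree + (i : ℕ)
  set I : Finset (Fin n) := S.filter fun i => (w i).natDegree + (i : ℕ) = N with hI
  have hi2I : i2 ∈ I := by
    simp only [hI, Finset.mem_filter]
    exact ⟨hi2S, hi2.symm⟩
  have hIprop : ∀ i ∈ I, w i ≠ 0 ∧ (w i).natDegree + (i : ℕ) = N := by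
    intro i hi
    simp only [hI, hS, Finset.mem_filter, Finset.mem_univ, true_and] at hi
    exact hi
  -- coefficient of X^N
  have hcoef : ∀ j < d, ∑ i ∈ I, (w i).leadingCoeff * ((i : ℕ) + 1 : F) ^ j = 0 := by
    intro j hj
    have h1 := congrArg (fun p : F[X] => p.coeff N) (hrel ⟨j, hj⟩)
    simp only [Polynomial.finsetSum_coeff, Polynomial.coeff_mul_C, Polynomial.coeff_zero] at h1
    rw [← h1, ← Finset.sum_subset (Finset.subset_univ I)]
    · refine Finset.sum_congr rfl fun i hi => ?_
      obtain ⟨_, h2⟩ := hIprop i hi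
      rw [← h2, Polynomial.coeff_mul_X_pow]
      rfl
    · intro i _ hi
      by_cases h0 : w i = 0
      · simp [h0]
      · have hlt : (w i).natDegree + (i : ℕ) < N := by
          refine lt_of_le_of_ne (hNle i h0) fun h => hi ?_
          simp only [hI, hS, Finset.mem_filter, Finset.mem_univ, true_and]
          exact ⟨h0, h⟩
        have : N = (N - (i : ℕ)) + (i : ℕ) := by omega
        rw [this, Polynomial.coeff_mul_X_pow, Polynomial.coeff_eq_zero_of_natDegree_lt (by omega),
          zero_mul]
  -- |I| ≤ d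
  have hcard : I.card ≤ d := by
    let T : Matrix I I F := Matrix.of fun i i' => (w i').coeff (N - ((i : Fin n) : ℕ))
    have hT : T = (Matrix.of fun (i : I) (b : Fin d) => (f b).coeff (N - ((i : Fin n) : ℕ))) *
        (Matrix.of fun (b : Fin d) (i' : I) => Cm b i') := by
      ext i i'
      simp only [T, Matrix.mul_apply, Matrix.of_apply]
      exact hwcoef _ _
    have htri : T.BlockTriangular OrderDual.toDual := by
      intro i i' hii
      have hlt : (i : Fin n) < (i' : Fin n) := hii
      obtain ⟨_, h2⟩ := hIprop i' i'.2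
      obtain ⟨_, h3⟩ := hIprop i i.2
      simp only [T, Matrix.of_apply]
      apply Polynomial.coeff_eq_zero_of_natDegree_lt
      have : ((i : Fin n) : ℕ) < ((i' : Fin n) : ℕ) := hlt
      omega
    have hdetT : T.det ≠ 0 := by
      rw [Matrix.det_of_isLowerTriangular T htri, Finset.prod_ne_zero_iff]
      intro i _
      obtain ⟨h1, h2⟩ := hIprop i i.2
      simp only [T, Matrix.of_apply]
      have : N - ((i : Fin n) : ℕ) = (w i).natDegree := by omega
      rw [this]
      exact Polynomial.leadingCoeff_ne_zero.2 h1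
    have hr : T.rank = I.card := by
      rw [Matrix.rank_of_det_ne_zero hdetT]; simp
    rw [← hr, hT]
    refine (Matrix.rank_mul_le_left _ _).trans ?_
    refine (Matrix.rank_le_card_width _).trans ?_
    simp
  have := vandermonde_rows I hcard (fun i => (w i).leadingCoeff) hcoef i2 hi2I
  exact (Polynomial.leadingCoeff_ne_zero.2 (hIprop i2 hi2I).1) this

lemma condMat_det_natDegree {n d : ℕ} (Cm : Matrix (Fin d) (Fin n) F) :
    (condMat Cm).det.natDegree ≤ d * n := by
  classical
  rw [Matrix.det_apply]
  refine Polynomial.natDegree_sum_le_of_forall_le _ _ fun σ _ => ?_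
  rw [Units.smul_def, zsmul_eq_mul]
  refine Polynomial.natDegree_mul_le.trans ?_
  rw [Polynomial.natDegree_intCast, zero_add]
  refine (Polynomial.natDegree_prod_le _ _).trans ?_
  have : ∀ b : Fin d, (condMat Cm (σ b) b).natDegree ≤ n := by
    intro b
    simp only [condMat, Matrix.of_apply]
    refine Polynomial.natDegree_sum_le_of_forall_le _ _ fun i _ => ?_
    have h1 : (Polynomial.C (Cm (σ b) i) * X ^ (i : ℕ) *
      Polynomial.C (((i : ℕ) + 1 : F) ^ (b : ℕ))).natDegree ≤ (i : ℕ) := by
      rw [mul_assoc, mul_comm (X ^ (i : ℕ)), ← mul_assoc, ← Polynomial.C_mul]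
      exact Polynomial.natDegree_C_mul_X_pow_le _ _
    exact h1.trans i.2.le
  calc ∑ b, (condMat Cm (σ b) b).natDegree ≤ ∑ _b : Fin d, n := Finset.sum_le_sum fun b _ => this b
    _ = d * n := by simp

/-- the condenser matrix at the parameter `g` -/
def cond (F : Type*) [Field F] (n t : ℕ) (g : ℕ) : Matrix (Fin n) (Fin t) F :=
  Matrix.of fun i j => (g : F) ^ (i : ℕ) * ((i : ℕ) + 1 : F) ^ (j : ℕ)

/-- a rank condenser: some parameter `g ≤ t n` preserves the rank of a given matrix of rank `≤ t`. -/
theorem exists_cond [CharZero F] {ι : Type*} [Fintype ι] {n t : ℕ} (C0 : Matrix ι (Fin n) F)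
    (ht : C0.rank ≤ t) :
    ∃ g ≤ t * n, (C0 * cond F n t g).rank = C0.rank := by
  classical
  -- choose independent rows
  obtain ⟨κ, a, ha, hsp, hli⟩ := exists_linearIndependent' F C0.row
  have : Finite κ := Finite.of_injective a ha
  have : Fintype κ := Fintype.ofFinite κ
  have h1 : Fintype.card κ = C0.rank := by
    rw [C0.rank_eq_finrank_span_row, ← hsp, linearIndependent_iff_card_eq_finrank_span.mp hli,
      Set.finrank]
  set d := C0.rank with hd
  let e : Fin d ≃ κ := (Fin.castOrderIso h1.symm).toEquiv.trans (Fintype.equivFin κ).symm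
  let Cm : Matrix (Fin d) (Fin n) F := C0.submatrix (a ∘ e) id
  have hCm : LinearIndependent F Cm.row := hli.comp e e.injective
  have hne := condMat_det_ne_zero Cm hCm
  have hdeg := condMat_det_natDegree Cm
  -- a non-root
  have : ∃ g ∈ Finset.range (t * n + 1), ¬ (condMat Cm).det.IsRoot ((g : ℕ) : F) := by
    by_contra hall
    push Not at hall
    have hcard : (t * n + 1) ≤ (condMat Cm).det.natDegree := by
      have h2 : ((Finset.range (t * n + 1)).image (fun g : ℕ => (g : F))).card ≤
          (condMat Cm).det.natDegree := by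
        refine le_trans (Finset.card_le_card ?_) (Polynomial.card_roots' _ |> le_trans (Multiset.toFinset_card_le _))
        intro x hx
        obtain ⟨g, hg, rfl⟩ := Finset.mem_image.1 hx
        rw [Multiset.mem_toFinset, Polynomial.mem_roots hne]
        exact hall g hg
      rwa [Finset.card_image_of_injective _ Nat.cast_injective, Finset.card_range] at h2
    have : (condMat Cm).det.natDegree ≤ t * n := hdeg.trans (Nat.mul_le_mul_right _ ht)
    omega
  obtain ⟨g, hg, hroot⟩ := this
  refine ⟨g, Nat.lt_succ_iff.1 (Finset.mem_range.1 hg), le_antisymm (Matrix.rank_mul_le_left _ _) ?_⟩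
  -- the minor
  have hev : (condMat Cm).det.eval ((g : ℕ) : F) =
      ((C0 * cond F n t g).submatrix (a ∘ e) (Fin.castLE ht)).det := by
    rw [← Polynomial.coe_evalRingHom, RingHom.map_det]
    congr 1
    ext b j
    simp only [RingHom.mapMatrix_apply, Matrix.map_apply, condMat, Matrix.of_apply, map_sum,
      map_mul, Matrix.submatrix_apply, Matrix.mul_apply, cond, Cm]
    refine Finset.sum_congr rfl fun i _ => ?_
    simp [mul_assoc]
  have h3 : ((C0 * cond F n t g).submatrix (a ∘ e) (Fin.castLE ht)).det ≠ 0 := by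
    rw [← hev]; exact hroot
  have h4 : ((C0 * cond F n t g).submatrix (a ∘ e) (Fin.castLE ht)).rank = d := by
    rw [Matrix.rank_of_det_ne_zero h3]; simp
  calc d = ((C0 * cond F n t g).submatrix (a ∘ e) (Fin.castLE ht)).rank := h4.symm
    _ ≤ _ := Matrix.rank_submatrix_le _ _ _

end Pool.Agent.H53.Edm
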