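import Mathlib
import Pool.Agent.H20.Edm.Minor

set_option autoImplicit false

/-!
# Rank along lines and finite conjunctions of rank conditions
-/

namespace Pool.Agent.H53.Edm

open Module Submodule

section line

variable {F : Type*} [Field F]

/-- along a line of matrices the rank drops only finitely often -/
lemma line_finite_matrix {m k : Type*} [Fintype m] [Fintype k] (A0 A1 : Matrix m k F) (τ0 : F)
    (r : ℕ) (h : r ≤ (A0 + τ0 • A1).rank) :
    {τ : F | (A0 + τ • A1).rank < r}.Finite := by
  classical
  obtain ⟨f, g, hfg⟩ := Pool.Agent.H20.Edm.exists_minor _ h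
  let P : Matrix (Fin r) (Fin r) (Polynomial F) :=
    Matrix.of fun p q => Polynomial.C (A0 (f p) (g q)) + Polynomial.X * Polynomial.C (A1 (f p) (g q))
  have hP : ∀ τ : F, P.det.eval τ = ((A0 + τ • A1).submatrix f g).det := by
    intro τ
    rw [← Polynomial.coe_evalRingHom, RingHom.map_det]
    congr 1
    ext p q
    simp [P]
    exact mul_comm _ _
  have hne : P.det ≠ 0 := by
    intro h0
    apply hfg
    rw [← hP, h0, Polynomial.eval_zero]
  refine (P.det.roots.toFinset.finite_toSet).subset ?_
  intro τ hτ
  simp only [Finset.mem_coe, Multiset.mem_toFinset]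
  rw [Polynomial.mem_roots hne, Polynomial.IsRoot, hP]
  by_contra hcon
  exact absurd (Pool.Agent.H20.Edm.le_rank_of_minor _ f g hcon) (not_le.2 hτ)

variable {V V' : Type*} [AddCommGroup V] [Module F V] [FiniteDimensional F V]
  [AddCommGroup V'] [Module F V'] [FiniteDimensional F V']

lemma line_finite (A0 A1 : V →ₗ[F] V') (τ0 : F) (r : ℕ)
    (h : r ≤ finrank F (LinearMap.range (A0 + τ0 • A1))) :
    {τ : F | finrank F (LinearMap.range (A0 + τ • A1)) < r}.Finite := by
  classical
  let b := Module.finBasis F V
  let b' := Module.finBasis F V'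
  have key : ∀ τ : F, (LinearMap.toMatrix b b' A0 + τ • LinearMap.toMatrix b b' A1).rank
      = finrank F (LinearMap.range (A0 + τ • A1)) := by
    intro τ
    rw [Matrix.rank_eq_finrank_range_toLin _ b' b, ← map_smul, ← map_add,
      Matrix.toLin_toMatrix]
  have h1 := line_finite_matrix (LinearMap.toMatrix b b' A0) (LinearMap.toMatrix b b' A1) τ0 r
    (by rw [key]; exact h)
  refine h1.subset ?_
  intro τ hτ
  simp only [Set.mem_ofPred_eq, key] at hτ ⊢
  exact hτ

end line

end Pool.Agent.H53.Edm
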