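import Mathlib
import Pool.Agent.H53.Edm.Line

set_option autoImplicit false

/-!
# The min-max formula for `A + ∑ b_j u_j ⊗ v_j` (fixed `A`, infinite field)
-/

namespace Pool.Agent.H53.Edm

open Module Submodule

section common

variable {F : Type*} [Field F] {X : Type*} [AddCommGroup X] [Module F X]

/-- along every line the property holds nowhere or up to finitely many points -/
def LineOpen (F : Type*) [Field F] {X : Type*} [AddCommGroup X] [Module F X] (Q : X → Prop) :
    Prop :=
  ∀ (x d : X) (τ0 : F), Q (x + τ0 • d) → {τ : F | ¬ Q (x + τ • d)}.Finite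

lemma exists_common_finset [Infinite F] {ι : Type*} (s : Finset ι) (Q : ι → X → Prop)
    (hQ : ∀ i ∈ s, LineOpen F (Q i)) (h : ∀ i ∈ s, ∃ x, Q i x) : ∃ x, ∀ i ∈ s, Q i x := by
  classical
  induction s using Finset.induction_on with
  | empty => exact ⟨0, by simp⟩
  | insert a s ha ih =>
    obtain ⟨x0, hx0⟩ := ih (fun i hi => hQ i (Finset.mem_insert_of_mem hi))
      (fun i hi => h i (Finset.mem_insert_of_mem hi))
    obtain ⟨x1, hx1⟩ := h a (Finset.mem_insert_self _ _)
    have h1 : ∀ i ∈ s, {τ : F | ¬ Q i (x0 + τ • (x1 - x0))}.Finite := by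
      intro i hi
      refine hQ i (Finset.mem_insert_of_mem hi) x0 (x1 - x0) 0 ?_
      simpa using hx0 i hi
    have h2 : {τ : F | ¬ Q a (x0 + τ • (x1 - x0))}.Finite := by
      refine hQ a (Finset.mem_insert_self _ _) x0 (x1 - x0) 1 ?_
      simpa using hx1
    have h3 : ((⋃ i ∈ s, {τ : F | ¬ Q i (x0 + τ • (x1 - x0))}) ∪
        {τ : F | ¬ Q a (x0 + τ • (x1 - x0))}).Finite :=
      (Set.Finite.biUnion s.finite_toSet h1).union h2
    obtain ⟨τ, hτ⟩ := h3.exists_notMem
    refine ⟨x0 + τ • (x1 - x0), ?_⟩
    intro i hi
    by_contra hcon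
    apply hτ
    rcases Finset.mem_insert.1 hi with rfl | hi
    · exact Or.inr hcon
    · exact Or.inl (Set.mem_biUnion hi hcon)

end common

section val

variable {F : Type*} [Field F] {V V' : Type*} [AddCommGroup V] [Module F V]
  [AddCommGroup V'] [Module F V']

/-- `dim (L S + W) + codim S` -/
noncomputable def val (L : V →ₗ[F] V') (S : Submodule F V) (W : Submodule F V') : ℕ :=
  finrank F (S.map L ⊔ W : Submodule F V') + finrank F (V ⧸ S)

variable [FiniteDimensional F V] [FiniteDimensional F V']

lemma finrank_map_mkQ (W U : Submodule F V') :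
    finrank F (U.map W.mkQ) + finrank F W = finrank F (U ⊔ W : Submodule F V') := by
  have h1 := LinearMap.finrank_range_add_finrank_ker (W.mkQ.domRestrict (U ⊔ W))
  have h2 : (U ⊔ W).map W.mkQ = U.map W.mkQ := by
    rw [Submodule.map_sup]
    simp
  rw [← h1, LinearMap.range_domRestrict, LinearMap.ker_domRestrict, h2, Submodule.ker_mkQ]
  congr 1
  exact (Submodule.comapSubtypeEquivOfLe (le_sup_right : W ≤ U ⊔ W)).finrank_eq.symm

lemma val_eq (L : V →ₗ[F] V') (S : Submodule F V) (W : Submodule F V') :
    val L S W = finrank F (LinearMap.range (W.mkQ ∘ₗ L ∘ₗ S.subtype)) + finrank F W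
      + finrank F (V ⧸ S) := by
  unfold val
  rw [← finrank_map_mkQ, LinearMap.range_comp, LinearMap.range_comp, Submodule.range_subtype]

lemma lineOpen_range {X V0 V1 : Type*} [AddCommGroup X] [Module F X]
    [AddCommGroup V0] [Module F V0] [FiniteDimensional F V0]
    [AddCommGroup V1] [Module F V1] [FiniteDimensional F V1] (L0 : V →ₗ[F] V')
    (L : X →ₗ[F] V →ₗ[F] V') (P : V' →ₗ[F] V1) (Q : V0 →ₗ[F] V) (r : ℕ) :
    LineOpen F (fun x : X => r ≤ finrank F (LinearMap.range (P ∘ₗ (L0 + L x) ∘ₗ Q))) := by
  intro x d τ0 h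
  set A0 : V0 →ₗ[F] V1 := P ∘ₗ (L0 + L x) ∘ₗ Q with hA0
  set A1 : V0 →ₗ[F] V1 := P ∘ₗ (L d) ∘ₗ Q with hA1
  have key : ∀ τ : F, finrank F (LinearMap.range (P ∘ₗ (L0 + L (x + τ • d)) ∘ₗ Q)) =
      finrank F (LinearMap.range (A0 + τ • A1)) := by
    intro τ
    have : P ∘ₗ (L0 + L (x + τ • d)) ∘ₗ Q = A0 + τ • A1 := by
      ext w
      simp [hA0, hA1, add_assoc]
    rw [this]
  have h1 := line_finite A0 A1 τ0 r (by rw [← key]; exact h)
  refine h1.subset ?_
  intro τ hτ
  have := key τ
  simp only [Set.mem_ofPred_eq] at hτ ⊢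
  omega

lemma lineOpen_val {X : Type*} [AddCommGroup X] [Module F X] (L0 : V →ₗ[F] V')
    (L : X →ₗ[F] V →ₗ[F] V') (S : Submodule F V) (W : Submodule F V') (r : ℕ) :
    LineOpen F (fun x : X => r ≤ val (L0 + L x) S W) := by
  intro x d τ0 h
  have h1 := lineOpen_range L0 L W.mkQ S.subtype (r - (finrank F W + finrank F (V ⧸ S)))
    x d τ0 (by
      have := h
      simp only [val_eq] at this
      omega)
  refine h1.subset ?_
  intro τ hτ
  simp only [Set.mem_ofPred_eq, val_eq] at hτ ⊢
  omega

end val

section fixed

variable {F : Type*} [Field F]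

/-- the sum of the rank one maps -/
noncomputable def rkOneSum {ι : Type*} {V V' : Type*} [AddCommGroup V] [Module F V]
    [AddCommGroup V'] [Module F V'] (s : Finset ι) (u : ι → V') (v : ι → V →ₗ[F] F) :
    (ι → F) →ₗ[F] V →ₗ[F] V' where
  toFun b := ∑ j ∈ s, b j • (v j).smulRight (u j)
  map_add' b c := by simp [add_smul, Finset.sum_add_distrib]
  map_smul' a b := by simp [mul_smul, Finset.smul_sum]

/-- the intersection of the kernels of `v j`, `j ∉ J` -/
def kerOut {ι : Type*} {V : Type*} [AddCommGroup V] [Module F V] (s J : Finset ι)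
    (v : ι → V →ₗ[F] F) : Submodule F V :=
  ⨅ j ∈ (s : Set ι) \ J, LinearMap.ker (v j)

lemma mem_kerOut {ι : Type*} {V : Type*} [AddCommGroup V] [Module F V] {s J : Finset ι}
    {v : ι → V →ₗ[F] F} {w : V} : w ∈ kerOut s J v ↔ ∀ j ∈ s, j ∉ J → v j w = 0 := by
  simp [kerOut, Submodule.mem_iInf, LinearMap.mem_ker]

lemma rkOneSum_insert {ι : Type*} [DecidableEq ι] {V V' : Type*} [AddCommGroup V] [Module F V]
    [AddCommGroup V'] [Module F V'] (s : Finset ι) {a : ι} (ha : a ∉ s) (u : ι → V')
    (v : ι → V →ₗ[F] F) (b : ι → F) :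
    rkOneSum (insert a s) u v b = b a • (v a).smulRight (u a) + rkOneSum s u v b := by
  simp [rkOneSum, Finset.sum_insert ha]

lemma rkOneSum_congr {ι : Type*} {V V' : Type*} [AddCommGroup V] [Module F V]
    [AddCommGroup V'] [Module F V'] (s : Finset ι) (u : ι → V')
    (v : ι → V →ₗ[F] F) (b b' : ι → F) (h : ∀ j ∈ s, b j = b' j) :
    rkOneSum s u v b = rkOneSum s u v b' := by
  simp only [rkOneSum, LinearMap.coe_mk, AddHom.coe_mk]
  exact Finset.sum_congr rfl fun j hj => by rw [h j hj]

/-- the key rank one step -/
lemma rank_one_step {V V' : Type*} [AddCommGroup V] [Module F V]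
    [AddCommGroup V'] [Module F V'] [FiniteDimensional F V] [FiniteDimensional F V']
    (A : V →ₗ[F] V') (u : V') (v : V →ₗ[F] F) (r : ℕ) (hv : v ≠ 0) (hu : u ≠ 0)
    (h1 : r ≤ finrank F (LinearMap.range ((span F {u}).mkQ ∘ₗ A)))
    (h2 : r ≤ finrank F (LinearMap.range (A ∘ₗ (LinearMap.ker v).subtype))) :
    ∃ c : F, r + 1 ≤ finrank F (LinearMap.range (A + c • v.smulRight u)) := by
  by_cases hA : r + 1 ≤ finrank F (LinearMap.range A)
  · exact ⟨0, by rw [zero_smul, add_zero]; exact hA⟩
  refine ⟨1, ?_⟩
  have h3 : finrank F (LinearMap.range A ⊔ span F {u} : Submodule F V') ≥ r + 1 := by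
    rw [← finrank_map_mkQ, ← LinearMap.range_comp, finrank_span_singleton hu]
    omega
  have h4 : LinearMap.range (A ∘ₗ (LinearMap.ker v).subtype) = LinearMap.range A := by
    apply Submodule.eq_of_le_of_finrank_le
    · rw [LinearMap.range_comp, Submodule.range_subtype]
      exact LinearMap.map_le_range
    · omega
  have h5 : LinearMap.range A ≤ LinearMap.range (A + (1 : F) • v.smulRight u) := by
    rw [← h4]
    rintro _ ⟨w, rfl⟩
    refine ⟨w, ?_⟩
    have : v w = 0 := w.2
    simp [this]
  have h6 : u ∈ LinearMap.range (A + (1 : F) • v.smulRight u) := by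
    obtain ⟨w, hw⟩ : ∃ w, v w = 1 := by
      obtain ⟨w, hw⟩ : ∃ w, v w ≠ 0 := by
        by_contra hcon
        push Not at hcon
        exact hv (LinearMap.ext hcon)
      exact ⟨(v w)⁻¹ • w, by simp [hw]⟩
    have h7 : A w + u ∈ LinearMap.range (A + (1 : F) • v.smulRight u) := ⟨w, by simp [hw]⟩
    have h8 : A w ∈ LinearMap.range (A + (1 : F) • v.smulRight u) := h5 ⟨w, rfl⟩
    have := Submodule.sub_mem _ h7 h8
    simpa using this
  refine h3.le.trans (Submodule.finrank_mono (sup_le h5 ?_))
  rw [Submodule.span_singleton_le_iff_mem]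
  exact h6

universe u1 u2

theorem fixed_minmax [Infinite F] {ι : Type*} (s : Finset ι) :
    ∀ {V : Type u1} {V' : Type u2} [AddCommGroup V] [Module F V] [AddCommGroup V'] [Module F V']
      [FiniteDimensional F V] [FiniteDimensional F V'] (A : V →ₗ[F] V') (u : ι → V')
      (v : ι → V →ₗ[F] F) (r : ℕ)
      (_ : ∀ J ⊆ s, r ≤ val A (kerOut s J v) (span F (u '' (J : Set ι)))),
      ∃ b : ι → F, r ≤ finrank F (LinearMap.range (A + rkOneSum s u v b)) := by
  classical
  induction s using Finset.induction_on with
  | empty =>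
    intro V V' _ _ _ _ _ _ A u v r h
    refine ⟨0, ?_⟩
    have h1 := h ∅ (Finset.Subset.refl _)
    have h2 : kerOut ∅ ∅ v = ⊤ := by
      rw [eq_top_iff]
      intro w _
      simp [mem_kerOut]
    have h3 : finrank F (V ⧸ (⊤ : Submodule F V)) = 0 := by
      exact Module.finrank_zero_of_subsingleton
    have h4 : span F (u '' ((∅ : Finset ι) : Set ι)) = ⊥ := by simp
    rw [h2, h4, val, h3, sup_bot_eq, Submodule.map_top, add_zero] at h1
    rw [map_zero, add_zero]
    exact h1
  | insert a s ha ih =>
    intro V V' _ _ _ _ _ _ A u v r h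
    rcases Nat.eq_zero_or_pos r with rfl | hr
    · exact ⟨0, Nat.zero_le _⟩
    obtain ⟨r, rfl⟩ : ∃ r', r = r' + 1 := ⟨r - 1, by omega⟩
    by_cases hu : u a = 0
    · obtain ⟨b, hb⟩ := ih A u v (r + 1) (by
        intro J hJ
        have h1 := h (insert a J) (Finset.insert_subset_insert a hJ)
        have h2 : kerOut (insert a s) (insert a J) v = kerOut s J v := by
          ext w
          simp only [mem_kerOut, Finset.mem_insert]
          constructor
          · intro hw j hj hjJ
            refine hw j (Or.inr hj) ?_
            rintro (rfl | h')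
            · exact ha hj
            · exact hjJ h'
          · intro hw j hj hjJ
            push Not at hjJ
            rcases hj with rfl | hj
            · exact absurd rfl hjJ.1
            · exact hw j hj hjJ.2
        have h3 : span F (u '' ((insert a J : Finset ι) : Set ι)) = span F (u '' (J : Set ι)) := by
          rw [Finset.coe_insert, Set.image_insert_eq, hu, Submodule.span_insert_zero]
        rw [h2, h3] at h1
        exact h1)
      refine ⟨b, ?_⟩
      have h4 : b a • (v a).smulRight (0 : V') = 0 := by
        ext w; simp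
      rw [rkOneSum_insert s ha, hu, h4, zero_add]
      exact hb
    by_cases hv : v a = 0
    · obtain ⟨b, hb⟩ := ih A u v (r + 1) (by
        intro J hJ
        have h1 := h J (hJ.trans (Finset.subset_insert a s))
        have h2 : kerOut (insert a s) J v = kerOut s J v := by
          ext w
          simp only [mem_kerOut, Finset.mem_insert]
          constructor
          · intro hw j hj hjJ
            exact hw j (Or.inr hj) hjJ
          · intro hw j hj hjJ
            rcases hj with rfl | hj
            · simp [hv]
            · exact hw j hj hjJ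
        rw [h2] at h1
        exact h1)
      refine ⟨b, ?_⟩
      have h4 : b a • (0 : V →ₗ[F] F).smulRight (u a) = 0 := by
        ext w; simp
      rw [rkOneSum_insert s ha, hv, h4, zero_add]
      exact hb
    -- modulo `u a`
    obtain ⟨b1, hb1⟩ := ih ((span F {u a}).mkQ ∘ₗ A) (fun j => (span F {u a}).mkQ (u j)) v r (by
      intro J hJ
      have h1 := h (insert a J) (Finset.insert_subset_insert a hJ)
      have h2 : kerOut (insert a s) (insert a J) v = kerOut s J v := by
        ext w
        simp only [mem_kerOut, Finset.mem_insert]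
        constructor
        · intro hw j hj hjJ
          refine hw j (Or.inr hj) ?_
          rintro (rfl | h')
          · exact ha hj
          · exact hjJ h'
        · intro hw j hj hjJ
          push Not at hjJ
          rcases hj with rfl | hj
          · exact absurd rfl hjJ.1
          · exact hw j hj hjJ.2
      rw [h2] at h1
      have h3 : finrank F ((kerOut s J v).map A ⊔ span F (u '' ((insert a J : Finset ι) : Set ι)) :
          Submodule F V') = finrank F ((kerOut s J v).map ((span F {u a}).mkQ ∘ₗ A) ⊔
            span F ((fun j => (span F {u a}).mkQ (u j)) '' (J : Set ι)) :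
              Submodule F (V' ⧸ span F {u a})) + 1 := by
        have h4 : (kerOut s J v).map ((span F {u a}).mkQ ∘ₗ A) ⊔
            span F ((fun j => (span F {u a}).mkQ (u j)) '' (J : Set ι)) =
            ((kerOut s J v).map A ⊔ span F (u '' (J : Set ι))).map (span F {u a}).mkQ := by
          rw [Submodule.map_sup, Submodule.map_comp, Submodule.map_span, Set.image_image]
        have h5 : (kerOut s J v).map A ⊔ span F (u '' ((insert a J : Finset ι) : Set ι)) =
            ((kerOut s J v).map A ⊔ span F (u '' (J : Set ι))) ⊔ span F {u a} := by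
          rw [Finset.coe_insert, Set.image_insert_eq, Submodule.span_insert, sup_assoc,
            sup_comm (span F {u a})]
        rw [h4, ← finrank_span_singleton (K := F) hu, finrank_map_mkQ, h5]
      rw [val, h3] at h1
      rw [val]
      omega)
    -- on the kernel of `v a`
    obtain ⟨b2, hb2⟩ := ih (A ∘ₗ (LinearMap.ker (v a)).subtype) u
      (fun j => v j ∘ₗ (LinearMap.ker (v a)).subtype) r (by
      intro J hJ
      have h1 := h J (hJ.trans (Finset.subset_insert a s))
      have haJ : a ∉ J := fun h' => ha (hJ h')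
      have h2 : kerOut (insert a s) J v = (kerOut s J
          (fun j => v j ∘ₗ (LinearMap.ker (v a)).subtype)).map (LinearMap.ker (v a)).subtype := by
        ext w
        simp only [mem_kerOut, Submodule.mem_map, Finset.mem_insert, LinearMap.comp_apply]
        constructor
        · intro hw
          refine ⟨⟨w, hw a (Or.inl rfl) haJ⟩, fun j hj hjJ => hw j (Or.inr hj) hjJ, rfl⟩
        · rintro ⟨w', hw', rfl⟩ j hj hjJ
          rcases hj with rfl | hj
          · exact w'.2
          · exact hw' j hj hjJ
      set S' := kerOut s J (fun j => v j ∘ₗ (LinearMap.ker (v a)).subtype) with hS'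
      have h3 : (kerOut (insert a s) J v).map A = S'.map (A ∘ₗ (LinearMap.ker (v a)).subtype) := by
        rw [h2, Submodule.map_comp]
      have h4 : finrank F (V ⧸ kerOut (insert a s) J v) =
          finrank F (LinearMap.ker (v a) ⧸ S') + 1 := by
        have h5 := Submodule.finrank_quotient_add_finrank (kerOut (insert a s) J v)
        have h6 := Submodule.finrank_quotient_add_finrank S'
        have h7 : finrank F (kerOut (insert a s) J v) = finrank F S' := by
          rw [h2]
          exact Submodule.finrank_map_subtype_eq _ _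
        have h8 := LinearMap.finrank_range_add_finrank_ker (v a)
        have h9 : finrank F (LinearMap.range (v a)) = 1 := by
          rw [LinearMap.range_eq_top.2 (LinearMap.surjective hv), finrank_top, Module.finrank_self]
        omega
      rw [val, h3, h4] at h1
      rw [val]
      omega)
    -- a common point on the line
    have hQ1 := lineOpen_range A (rkOneSum s u v) (span F {u a}).mkQ LinearMap.id r
    have hQ2 := lineOpen_range A (rkOneSum s u v) LinearMap.id (LinearMap.ker (v a)).subtype r
    have e1 : (span F {u a}).mkQ ∘ₗ A + rkOneSum s (fun j => (span F {u a}).mkQ (u j)) v b1 =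
        (span F {u a}).mkQ ∘ₗ (A + rkOneSum s u v b1) ∘ₗ LinearMap.id := by
      ext w
      simp only [rkOneSum, LinearMap.add_apply, LinearMap.comp_apply, map_add, LinearMap.coe_mk,
        AddHom.coe_mk, LinearMap.sum_apply, map_sum, LinearMap.smul_apply,
        LinearMap.smulRight_apply, map_smul, LinearMap.id_apply]
    have e2 : A ∘ₗ (LinearMap.ker (v a)).subtype +
        rkOneSum s u (fun j => v j ∘ₗ (LinearMap.ker (v a)).subtype) b2 =
        LinearMap.id ∘ₗ (A + rkOneSum s u v b2) ∘ₗ (LinearMap.ker (v a)).subtype := by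
      ext w
      simp [rkOneSum, LinearMap.sum_apply]
    rw [e1] at hb1
    rw [e2] at hb2
    obtain ⟨b, hb⟩ := exists_common_finset (F := F) (Finset.univ : Finset Bool)
      (fun (i : Bool) (b : ι → F) => if i then
        r ≤ finrank F (LinearMap.range ((span F {u a}).mkQ ∘ₗ (A + rkOneSum s u v b) ∘ₗ
          LinearMap.id))
        else r ≤ finrank F (LinearMap.range (LinearMap.id ∘ₗ (A + rkOneSum s u v b) ∘ₗ
          (LinearMap.ker (v a)).subtype))) (by
        intro i _
        cases i
        · simpa using hQ2
        · simpa using hQ1) (by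
        intro i _
        cases i
        · exact ⟨b2, by simpa using hb2⟩
        · exact ⟨b1, by simpa using hb1⟩)
    have h1 := hb true (Finset.mem_univ _)
    have h2 := hb false (Finset.mem_univ _)
    simp only [LinearMap.comp_id, LinearMap.id_comp, if_true, Bool.false_eq_true, if_false] at h1 h2
    obtain ⟨c, hc⟩ := rank_one_step (A + rkOneSum s u v b) (u a) (v a) r hv hu h1 h2
    refine ⟨Function.update b a c, ?_⟩
    rw [rkOneSum_insert s ha, Function.update_self,
      rkOneSum_congr s u v (Function.update b a c) b (by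
        intro j hj
        rw [Function.update_of_ne]
        rintro rfl
        exact ha hj), add_comm (c • _), ← add_assoc]
    exact hc

end fixed

end Pool.Agent.H53.Edm
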