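import Mathlib
import Pool.Agent.H20.Edm.Minor
import Pool.Agent.H53.Edm.Cond

set_option autoImplicit false

namespace Pool.Agent.H53.Edm

open Matrix Finset

/-- The explicit set of evaluation points for rank `c` in `n` variables: the points
`a i = g^i * ∑_{j < c²} (i+1)^j * y j` with `g ≤ c² n` and natural numbers `y j` of sum `≤ c`. -/
def hitSet (n c : ℕ) : Set (Fin n → ℕ) :=
  {a | ∃ g ≤ c ^ 2 * n, ∃ y : Fin (c ^ 2) → ℕ, ∑ j, y j ≤ c ∧
    ∀ i : Fin n, a i = g ^ (i : ℕ) * ∑ j : Fin (c ^ 2), ((i : ℕ) + 1) ^ (j : ℕ) * y j}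

variable {F : Type*} [Field F]

lemma range_eq_of_rank {ι : Type*} [Fintype ι] {n t : ℕ} (C0 : Matrix ι (Fin n) F)
    (E : Matrix (Fin n) (Fin t) F) (h : (C0 * E).rank = C0.rank) (x : Fin n → F) :
    ∃ y : Fin t → F, (C0 * E) *ᵥ y = C0 *ᵥ x := by
  have hle : LinearMap.range (C0 * E).mulVecLin ≤ LinearMap.range C0.mulVecLin := by
    rintro _ ⟨y, rfl⟩
    exact ⟨E *ᵥ y, by simp [Matrix.mulVec_mulVec]⟩
  have heq : LinearMap.range (C0 * E).mulVecLin = LinearMap.range C0.mulVecLin := by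
    apply Submodule.eq_of_le_of_finrank_eq hle
    exact h
  have : C0 *ᵥ x ∈ LinearMap.range (C0 * E).mulVecLin := by
    rw [heq]; exact ⟨x, rfl⟩
  obtain ⟨y, hy⟩ := this
  exact ⟨y, hy⟩

lemma exists_grid [CharZero F] {σ : Type*} [Fintype σ] (f : MvPolynomial σ F) (hf : f ≠ 0)
    (c : ℕ) (hc : f.totalDegree ≤ c) :
    ∃ y : σ → ℕ, ∑ j, y j ≤ c ∧ MvPolynomial.eval (fun j => (y j : F)) f ≠ 0 := by
  classical
  have hne : f.support.Nonempty := by
    rw [Finset.nonempty_iff_ne_empty]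
    intro h
    exact hf (MvPolynomial.support_eq_empty.1 h)
  obtain ⟨s, hs, hs2⟩ := Finset.exists_mem_eq_sup f.support hne (fun s => s.sum fun _ e => e)
  have hdeg : f.totalDegree = s.degree := by
    rw [MvPolynomial.totalDegree, hs2]
    rw [Finsupp.degree_eq_sum]
    exact Finsupp.sum_fintype _ _ (fun _ => rfl)
  obtain ⟨z, hz, hz2⟩ := MvPolynomial.combinatorial_nullstellensatz_exists_eval_nonzero f s
    (MvPolynomial.mem_support_iff.1 hs) hdeg
    (fun i => (Finset.range (s i + 1)).image (fun k : ℕ => (k : F)))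
    (fun i => by
      rw [Finset.card_image_of_injective _ Nat.cast_injective, Finset.card_range]
      omega)
  have hz' : ∀ i, ∃ k : ℕ, k ≤ s i ∧ (k : F) = z i := by
    intro i
    obtain ⟨k, hk, hk2⟩ := Finset.mem_image.1 (hz i)
    exact ⟨k, Nat.lt_succ_iff.1 (Finset.mem_range.1 hk), hk2⟩
  choose y hy1 hy2 using hz'
  refine ⟨y, ?_, ?_⟩
  · calc ∑ j, y j ≤ ∑ j, s j := Finset.sum_le_sum fun j _ => hy1 j
      _ = s.degree := (Finsupp.degree_eq_sum s).symm
      _ ≤ c := hdeg ▸ hc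
  · have : (fun j => (y j : F)) = z := funext hy2
    rw [this]; exact hz2

theorem hit_square [CharZero F] {n c : ℕ} (M0 : Matrix (Fin c) (Fin c) F)
    (M : Fin n → Matrix (Fin c) (Fin c) F) (x : Fin n → F)
    (h : (M0 + ∑ i, x i • M i).det ≠ 0) :
    ∃ a ∈ hitSet n c, (M0 + ∑ i, ((a i : ℕ) : F) • M i).det ≠ 0 := by
  classical
  let C0 : Matrix (Fin c × Fin c) (Fin n) F := Matrix.of fun p i => M i p.1 p.2
  have hrk : C0.rank ≤ c ^ 2 := by
    refine (Matrix.rank_le_card_height C0).trans ?_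
    simp [sq]
  obtain ⟨g, hg, hcond⟩ := exists_cond C0 hrk
  obtain ⟨y, hy⟩ := range_eq_of_rank C0 (cond F n (c ^ 2) g) hcond x
  let P : Matrix (Fin c) (Fin c) (MvPolynomial (Fin (c ^ 2)) F) := Matrix.of fun p q =>
    MvPolynomial.C (M0 p q) + ∑ j, MvPolynomial.C ((C0 * cond F n (c ^ 2) g) (p, q) j) *
      MvPolynomial.X j
  have hPeval : ∀ z : Fin (c ^ 2) → F, MvPolynomial.eval z P.det =
      (M0 + ∑ i, ((cond F n (c ^ 2) g) *ᵥ z) i • M i).det := by
    intro z
    rw [RingHom.map_det]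
    congr 1
    ext p q
    simp only [P, RingHom.mapMatrix_apply, Matrix.map_apply, Matrix.of_apply, map_add,
      MvPolynomial.eval_C, map_sum, map_mul, MvPolynomial.eval_X, Matrix.add_apply,
      Matrix.sum_apply, Matrix.smul_apply, smul_eq_mul]
    congr 1
    have h1 : ∑ j, (C0 * cond F n (c ^ 2) g) (p, q) j * z j
        = ((C0 * cond F n (c ^ 2) g) *ᵥ z) (p, q) := rfl
    rw [h1, ← Matrix.mulVec_mulVec]
    simp only [Matrix.mulVec, dotProduct, C0, Matrix.of_apply]
    exact Finset.sum_congr rfl fun i _ => mul_comm _ _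
  have hx : (M0 + ∑ i, ((cond F n (c ^ 2) g) *ᵥ y) i • M i) = M0 + ∑ i, x i • M i := by
    ext p q
    simp only [Matrix.add_apply, Matrix.sum_apply, Matrix.smul_apply, smul_eq_mul]
    congr 1
    have h1 := congrFun hy (p, q)
    rw [← Matrix.mulVec_mulVec] at h1
    simp only [Matrix.mulVec, dotProduct, C0, Matrix.of_apply] at h1
    simp only [Matrix.mulVec, dotProduct]
    calc _ = ∑ i, M i p q * ∑ j, cond F n (c ^ 2) g i j * y j :=
          Finset.sum_congr rfl fun i _ => mul_comm _ _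
      _ = _ := by rw [h1]; exact Finset.sum_congr rfl fun i _ => mul_comm _ _
  have hPne : P.det ≠ 0 := by
    intro h0
    apply h
    rw [← hx, ← hPeval, h0, map_zero]
  have hdeg : P.det.totalDegree ≤ c := by
    rw [Matrix.det_apply]
    refine MvPolynomial.totalDegree_finsetSum_le fun σ _ => ?_
    have h1 : (Equiv.Perm.sign σ • ∏ i, P (σ i) i : MvPolynomial (Fin (c ^ 2)) F)
        = MvPolynomial.C ((Equiv.Perm.sign σ : ℤ) : F) * ∏ i, P (σ i) i := by
      rw [Units.smul_def, zsmul_eq_mul]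
      simp
    rw [h1]
    refine (MvPolynomial.totalDegree_mul _ _).trans ?_
    rw [MvPolynomial.totalDegree_C, zero_add]
    refine (MvPolynomial.totalDegree_finsetProd _ _).trans ?_
    have h2 : ∀ i, (P (σ i) i).totalDegree ≤ 1 := by
      intro i
      simp only [P, Matrix.of_apply]
      refine (MvPolynomial.totalDegree_add _ _).trans (max_le ?_ ?_)
      · simp
      · refine MvPolynomial.totalDegree_finsetSum_le fun j _ => ?_
        refine (MvPolynomial.totalDegree_mul _ _).trans ?_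
        simp
    calc ∑ i, (P (σ i) i).totalDegree ≤ ∑ _i : Fin c, 1 := Finset.sum_le_sum fun i _ => h2 i
      _ = c := by simp
  obtain ⟨z, hz1, hz2⟩ := exists_grid P.det hPne c hdeg
  refine ⟨fun i => g ^ (i : ℕ) * ∑ j : Fin (c ^ 2), ((i : ℕ) + 1) ^ (j : ℕ) * z j,
    ⟨g, hg, z, hz1, fun i => rfl⟩, ?_⟩
  rw [hPeval] at hz2
  convert hz2 using 5 with i _
  simp only [Matrix.mulVec, dotProduct, cond, Matrix.of_apply]
  push_cast
  rw [Finset.mul_sum]
  exact Finset.sum_congr rfl fun j _ => by ring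

/-- rectangular version -/
theorem hit_rank [CharZero F] {n c : ℕ} {m k : Type*} [Fintype m] [Fintype k]
    (M0 : Matrix m k F) (M : Fin n → Matrix m k F) (x : Fin n → F)
    (h : c ≤ (M0 + ∑ i, x i • M i).rank) :
    ∃ a ∈ hitSet n c, c ≤ (M0 + ∑ i, ((a i : ℕ) : F) • M i).rank := by
  obtain ⟨f, g, hfg⟩ := Pool.Agent.H20.Edm.exists_minor _ h
  have key : ∀ z : Fin n → F, (M0 + ∑ i, z i • M i).submatrix f g =
      M0.submatrix f g + ∑ i, z i • (M i).submatrix f g := by
    intro z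
    ext p q
    simp [Matrix.sum_apply]
  rw [key] at hfg
  obtain ⟨a, ha, ha2⟩ := hit_square _ _ x hfg
  refine ⟨a, ha, Pool.Agent.H20.Edm.le_rank_of_minor _ f g ?_⟩
  rw [key]
  exact ha2

end Pool.Agent.H53.Edm
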