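import Mathlib
import Pool.Agent.H53.Edm.Fixed
import Pool.Agent.H53.Edm.Hit

set_option autoImplicit false

/-!
# Max-max formula for `A + ∑ b_j u_j ⊗ v_j`, easy inequality, and the hitting lemma for subspaces
-/

namespace Pool.Agent.H53.Edm

open Module Submodule

variable {F : Type*} [Field F]

section easy

variable {V V' : Type*} [AddCommGroup V] [Module F V] [AddCommGroup V'] [Module F V']
  [FiniteDimensional F V] [FiniteDimensional F V']

omit [FiniteDimensional F V'] in
lemma finrank_range_le_add (f : V →ₗ[F] V') (S : Submodule F V) :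
    finrank F (LinearMap.range f) ≤ finrank F (S.map f) + finrank F (V ⧸ S) := by
  have h1 := LinearMap.finrank_range_add_finrank_ker f
  have h2 := LinearMap.finrank_range_add_finrank_ker (f.domRestrict S)
  have h3 := Submodule.finrank_quotient_add_finrank S
  rw [LinearMap.range_domRestrict, LinearMap.ker_domRestrict] at h2
  have h4 : finrank F (Submodule.comap S.subtype (LinearMap.ker f)) ≤
      finrank F (LinearMap.ker f) := by
    rw [← Submodule.finrank_map_subtype_eq S]
    apply Submodule.finrank_mono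
    rw [Submodule.map_comap_subtype]
    exact inf_le_right
  omega

lemma rank_le_val {ι : Type*} (s J : Finset ι) (A : V →ₗ[F] V') (u : ι → V')
    (v : ι → V →ₗ[F] F) (b : ι → F) :
    finrank F (LinearMap.range (A + rkOneSum s u v b)) ≤
      val A (kerOut s J v) (span F (u '' (J : Set ι))) := by
  classical
  refine (finrank_range_le_add _ (kerOut s J v)).trans ?_
  unfold val
  refine Nat.add_le_add_right (Submodule.finrank_mono ?_) _
  rintro _ ⟨w, hw, rfl⟩
  rw [SetLike.mem_coe, mem_kerOut] at hw
  rw [LinearMap.add_apply]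
  refine Submodule.add_mem_sup ⟨w, by rw [SetLike.mem_coe, mem_kerOut]; exact hw, rfl⟩ ?_
  simp only [rkOneSum, LinearMap.coe_mk, AddHom.coe_mk, LinearMap.sum_apply,
    LinearMap.smul_apply, LinearMap.smulRight_apply]
  refine Submodule.sum_mem _ fun j hj => ?_
  by_cases hjJ : j ∈ J
  · exact Submodule.smul_mem _ _ (Submodule.smul_mem _ _ (Submodule.subset_span ⟨j, hjJ, rfl⟩))
  · rw [hw j hj hjJ]
    simp

end easy

section maxmax

variable {V V' : Type*} [AddCommGroup V] [Module F V] [AddCommGroup V'] [Module F V']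
  [FiniteDimensional F V] [FiniteDimensional F V']

/-- the intersection of the kernels of `v j`, `j ∈ K` -/
def kerIn {ι : Type*} {V : Type*} [AddCommGroup V] [Module F V] (K : Finset ι)
    (v : ι → V →ₗ[F] F) : Submodule F V :=
  kerOut K ∅ v

lemma mem_kerIn {ι : Type*} {V : Type*} [AddCommGroup V] [Module F V] {K : Finset ι}
    {v : ι → V →ₗ[F] F} {w : V} : w ∈ kerIn K v ↔ ∀ j ∈ K, v j w = 0 := by
  simp [kerIn, mem_kerOut]

lemma kerIn_insert {ι : Type*} [DecidableEq ι] {V : Type*} [AddCommGroup V] [Module F V]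
    (K : Finset ι) (a : ι) (v : ι → V →ₗ[F] F) :
    kerIn (insert a K) v = kerIn K v ⊓ LinearMap.ker (v a) := by
  ext w
  simp only [mem_kerIn, Finset.mem_insert, forall_eq_or_imp, Submodule.mem_inf, LinearMap.mem_ker]
  tauto

/-- one step of the bordering argument -/
lemma border_step (A : V →ₗ[F] V') (u : V') (v : V →ₗ[F] F) (b : F) (S : Submodule F V)
    (W : Submodule F V') (t : ℕ) (h1 : t ≤ val (A + b • v.smulRight u) S W)
    (h2 : val A S W < t) : t + 1 ≤ val A (S ⊓ LinearMap.ker v) (W ⊔ span F {u}) := by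
  classical
  set A' := A + b • v.smulRight u with hA'
  have hA'app : ∀ w, A' w = A w + b • v w • u := by intro w; simp [hA']
  -- `v` does not vanish on `S`
  have hvS : ∃ w ∈ S, v w = 1 := by
    by_contra hcon
    have h0 : ∀ w ∈ S, v w = 0 := by
      intro w hw
      by_contra hvw
      exact hcon ⟨(v w)⁻¹ • w, S.smul_mem _ hw, by simp [hvw]⟩
    have : S.map A' = S.map A := by
      ext z
      simp only [Submodule.mem_map]
      constructor
      · rintro ⟨w, hw, rfl⟩
        exact ⟨w, hw, by rw [hA'app, h0 w hw]; simp⟩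
      · rintro ⟨w, hw, rfl⟩
        exact ⟨w, hw, by rw [hA'app, h0 w hw]; simp⟩
    rw [val, this] at h1
    rw [val] at h2
    omega
  obtain ⟨w0, hw0S, hw0⟩ := hvS
  set S' := S ⊓ LinearMap.ker v with hS'
  have hcodim : finrank F (V ⧸ S') = finrank F (V ⧸ S) + 1 := by
    have e1 := Submodule.finrank_quotient_add_finrank S'
    have e2 := Submodule.finrank_quotient_add_finrank S
    have e3 := LinearMap.finrank_range_add_finrank_ker (v.domRestrict S)
    have e4 : LinearMap.range (v.domRestrict S) = ⊤ := by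
      rw [LinearMap.range_eq_top]
      intro c
      exact ⟨⟨c • w0, S.smul_mem _ hw0S⟩, by simp [hw0]⟩
    have e5 : finrank F (LinearMap.ker (v.domRestrict S)) = finrank F S' := by
      rw [LinearMap.ker_domRestrict, ← Submodule.finrank_map_subtype_eq S,
        Submodule.map_comap_subtype]
    rw [e4, finrank_top, Module.finrank_self, e5] at e3
    omega
  have hmapS' : S'.map A' = S'.map A := by
    ext z
    simp only [Submodule.mem_map]
    constructor
    · rintro ⟨w, hw, rfl⟩
      have : v w = 0 := hw.2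
      exact ⟨w, hw, by rw [hA'app, this]; simp⟩
    · rintro ⟨w, hw, rfl⟩
      have : v w = 0 := hw.2
      exact ⟨w, hw, by rw [hA'app, this]; simp⟩
  have hdec : ∀ w ∈ S, w - v w • w0 ∈ S' := by
    intro w hw
    refine ⟨S.sub_mem hw (S.smul_mem _ hw0S), ?_⟩
    simp [hw0]
  -- `A' S + W ≤ A S' + W + ⟨A' w0⟩`
  have hle1 : S.map A' ⊔ W ≤ (S'.map A ⊔ W) ⊔ span F {A' w0} := by
    refine sup_le ?_ (le_sup_right.trans le_sup_left)
    rintro _ ⟨w, hw, rfl⟩
    have : A' w = A' (w - v w • w0) + v w • A' w0 := by simp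
    rw [this]
    refine Submodule.add_mem _ ?_ ?_
    · refine le_sup_left (α := Submodule F V') (le_sup_left (α := Submodule F V') ?_)
      rw [← hmapS']
      exact ⟨_, hdec w hw, rfl⟩
    · exact le_sup_right (α := Submodule F V') (Submodule.smul_mem _ _
        (Submodule.mem_span_singleton_self _))
  have hspan : ∀ (U : Submodule F V') (z : V'),
      finrank F (U ⊔ span F {z} : Submodule F V') ≤ finrank F U + 1 := by
    intro U z
    refine (Submodule.finrank_add_le_finrank_add_finrank U (span F {z})).trans ?_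
    have := finrank_span_le_card (R := F) ({z} : Set V')
    simp only [Set.toFinset_singleton, Finset.card_singleton] at this
    omega
  have hle2 : S'.map A ⊔ W ≤ S.map A ⊔ W :=
    sup_le_sup_right (Submodule.map_mono inf_le_left) _
  have f1 := Submodule.finrank_mono hle1
  have f2 := hspan (S'.map A ⊔ W) (A' w0)
  have f3 := Submodule.finrank_mono hle2
  rw [val] at h1 h2
  have heq : S'.map A ⊔ W = S.map A ⊔ W := by
    apply Submodule.eq_of_le_of_finrank_le hle2
    omega
  -- `u ∉ A S + W`
  have hu : u ∉ S.map A ⊔ W := by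
    intro hu
    have : S.map A' ⊔ W ≤ S.map A ⊔ W := by
      refine sup_le ?_ le_sup_right
      rintro _ ⟨w, hw, rfl⟩
      rw [hA'app]
      exact Submodule.add_mem _ (le_sup_left (α := Submodule F V') ⟨w, hw, rfl⟩)
        (Submodule.smul_mem _ _ (Submodule.smul_mem _ _ hu))
    have := Submodule.finrank_mono this
    omega
  have f4 : finrank F (S.map A ⊔ W : Submodule F V') <
      finrank F (S'.map A ⊔ (W ⊔ span F {u}) : Submodule F V') := by
    apply Submodule.finrank_lt_finrank_of_lt
    rw [← sup_assoc, heq]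
    refine lt_of_le_of_ne le_sup_left ?_
    intro hcon
    apply hu
    rw [hcon]
    exact le_sup_right (α := Submodule F V') (Submodule.mem_span_singleton_self _)
  rw [val, hcodim]
  omega

theorem exists_border {ι : Type*} (s : Finset ι) (u : ι → V') (v : ι → V →ₗ[F] F) (r : ℕ)
    (b : ι → F) :
    ∀ (A : V →ₗ[F] V') (_ : r ≤ finrank F (LinearMap.range (A + rkOneSum s u v b))),
      ∃ K ⊆ s, r + K.card ≤ val A (kerIn K v) (span F (u '' (K : Set ι))) := by
  classical
  induction s using Finset.induction_on with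
  | empty =>
    intro A h
    refine ⟨∅, Finset.Subset.refl _, ?_⟩
    have h2 : kerIn ∅ v = ⊤ := by
      rw [eq_top_iff]
      intro w _
      simp [mem_kerIn]
    have h4 : span F (u '' ((∅ : Finset ι) : Set ι)) = ⊥ := by simp
    have h5 : rkOneSum ∅ u v b = 0 := by simp [rkOneSum]
    rw [h5, add_zero] at h
    rw [val, h2, h4, sup_bot_eq, Submodule.map_top]
    simp only [Finset.card_empty]
    omega
  | insert a s ha ih =>
    intro A h
    rw [rkOneSum_insert s ha, ← add_assoc] at h
    obtain ⟨K, hK, hval⟩ := ih (A + b a • (v a).smulRight (u a)) h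
    by_cases hcase : r + K.card ≤ val A (kerIn K v) (span F (u '' (K : Set ι)))
    · exact ⟨K, hK.trans (Finset.subset_insert _ _), hcase⟩
    · have h1 := border_step A (u a) (v a) (b a) _ _ _ hval (not_le.1 hcase)
      refine ⟨insert a K, Finset.insert_subset_insert _ hK, ?_⟩
      rw [Finset.card_insert_of_notMem (fun h' => ha (hK h')), kerIn_insert, Finset.coe_insert,
        Set.image_insert_eq, Submodule.span_insert, sup_comm (span F {u a})]
      omega

/-- intersecting with kernels of `v j`, `j ∈ L`, raises the codimension by at most `|L|` -/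
lemma codim_inf_kerIn_le {ι : Type*} (S : Submodule F V) (v : ι → V →ₗ[F] F) (L : Finset ι) :
    finrank F (V ⧸ (S ⊓ kerIn L v)) ≤ finrank F (V ⧸ S) + L.card := by
  classical
  induction L using Finset.induction_on with
  | empty =>
    have h2 : kerIn ∅ v = ⊤ := by
      rw [eq_top_iff]
      intro w _
      simp [mem_kerIn]
    rw [h2, inf_top_eq]
    simp
  | insert a L ha ih =>
    rw [Finset.card_insert_of_notMem ha, kerIn_insert, ← inf_assoc]
    set T := S ⊓ kerIn L v with hT
    have e1 := Submodule.finrank_quotient_add_finrank (T ⊓ LinearMap.ker (v a))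
    have e2 := Submodule.finrank_quotient_add_finrank T
    have e3 := LinearMap.finrank_range_add_finrank_ker ((v a).domRestrict T)
    have e4 : finrank F (LinearMap.range ((v a).domRestrict T)) ≤ 1 := by
      refine (Submodule.finrank_le _).trans ?_
      rw [Module.finrank_self]
    have e5 : finrank F (LinearMap.ker ((v a).domRestrict T)) =
        finrank F (T ⊓ LinearMap.ker (v a) : Submodule F V) := by
      rw [LinearMap.ker_domRestrict, ← Submodule.finrank_map_subtype_eq T,
        Submodule.map_comap_subtype]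
    omega

lemma finrank_span_image_le {ι : Type*} (u : ι → V') (L : Finset ι) :
    finrank F (span F (u '' (L : Set ι))) ≤ L.card := by
  classical
  rw [← Finset.coe_image]
  exact (finrank_span_finset_le_card _).trans Finset.card_image_le

theorem exists_of_border [Infinite F] {ι : Type*} (K : Finset ι) (A : V →ₗ[F] V') (u : ι → V')
    (v : ι → V →ₗ[F] F) (r : ℕ)
    (h : r + K.card ≤ val A (kerIn K v) (span F (u '' (K : Set ι)))) :
    ∃ b : ι → F, r ≤ finrank F (LinearMap.range (A + rkOneSum K u v b)) := by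
  classical
  refine fixed_minmax K A u v r ?_
  intro J hJ
  -- `S_{K \ J} ⊇ S_K`, with codimension smaller by at most `|J|`
  have h1 : kerOut K J v = kerIn (K \ J) v := by
    ext w
    simp only [mem_kerOut, mem_kerIn, Finset.mem_sdiff]
    tauto
  have h2 : kerIn K v = kerIn (K \ J) v ⊓ kerIn J v := by
    ext w
    simp only [mem_kerIn, Submodule.mem_inf, Finset.mem_sdiff]
    constructor
    · intro hw
      exact ⟨fun j hj => hw j hj.1, fun j hj => hw j (hJ hj)⟩
    · rintro ⟨hw1, hw2⟩ j hj
      by_cases hjJ : j ∈ J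
      · exact hw2 j hjJ
      · exact hw1 j ⟨hj, hjJ⟩
  have h3 := codim_inf_kerIn_le (kerIn (K \ J) v) v J
  rw [← h2] at h3
  have h4 : span F (u '' (K : Set ι)) = span F (u '' (J : Set ι)) ⊔
      span F (u '' ((K \ J : Finset ι) : Set ι)) := by
    rw [← Submodule.span_union, ← Set.image_union, ← Finset.coe_union,
      Finset.union_sdiff_of_subset hJ]
  have h5 : (kerIn K v).map A ⊔ span F (u '' (K : Set ι)) ≤
      ((kerIn (K \ J) v).map A ⊔ span F (u '' (J : Set ι))) ⊔
        span F (u '' ((K \ J : Finset ι) : Set ι)) := by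
    rw [h4, ← sup_assoc]
    refine sup_le_sup_right (sup_le_sup_right (Submodule.map_mono ?_) _) _
    rw [h2]
    exact inf_le_left
  have h6 := Submodule.finrank_mono h5
  have h7 := Submodule.finrank_add_le_finrank_add_finrank
    ((kerIn (K \ J) v).map A ⊔ span F (u '' (J : Set ι)))
    (span F (u '' ((K \ J : Finset ι) : Set ι)))
  have h8 := finrank_span_image_le (F := F) u (K \ J)
  have h9 := Finset.card_sdiff_add_card_eq_card hJ
  rw [h1, val]
  rw [val] at h
  omega

end maxmax

section hit

variable {V V' : Type*} [AddCommGroup V] [Module F V] [AddCommGroup V'] [Module F V']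
  [FiniteDimensional F V] [FiniteDimensional F V']

lemma hit_linear [CharZero F] {n c : ℕ} (L0 : V →ₗ[F] V') (L : Fin n → (V →ₗ[F] V'))
    (x : Fin n → F) (h : c ≤ finrank F (LinearMap.range (L0 + ∑ i, x i • L i))) :
    ∃ a ∈ hitSet n c, c ≤ finrank F (LinearMap.range (L0 + ∑ i, ((a i : ℕ) : F) • L i)) := by
  classical
  let b := Module.finBasis F V
  let b' := Module.finBasis F V'
  have key : ∀ z : Fin n → F, (LinearMap.toMatrix b b' L0 +
      ∑ i, z i • LinearMap.toMatrix b b' (L i)).rank
      = finrank F (LinearMap.range (L0 + ∑ i, z i • L i)) := by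
    intro z
    have : LinearMap.toMatrix b b' L0 + ∑ i, z i • LinearMap.toMatrix b b' (L i) =
        LinearMap.toMatrix b b' (L0 + ∑ i, z i • L i) := by
      simp only [map_add, map_sum, map_smul]
    rw [Matrix.rank_eq_finrank_range_toLin _ b' b, this, Matrix.toLin_toMatrix]
  obtain ⟨a, ha, ha2⟩ := hit_rank (c := c) (LinearMap.toMatrix b b' L0)
    (fun i => LinearMap.toMatrix b b' (L i)) x (by rw [key]; exact h)
  refine ⟨a, ha, ?_⟩
  rw [← key]
  exact ha2

lemma hit_val [CharZero F] {n r : ℕ} (L0 : V →ₗ[F] V') (L : Fin n → (V →ₗ[F] V'))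
    (S : Submodule F V) (W : Submodule F V')
    (x : Fin n → F) (h : r ≤ val (L0 + ∑ i, x i • L i) S W) :
    ∃ a ∈ hitSet n (r - (finrank F W + finrank F (V ⧸ S))),
      r ≤ val (L0 + ∑ i, ((a i : ℕ) : F) • L i) S W := by
  classical
  have key : ∀ z : Fin n → F, val (L0 + ∑ i, z i • L i) S W =
      finrank F (LinearMap.range ((W.mkQ ∘ₗ L0 ∘ₗ S.subtype) +
        ∑ i, z i • (W.mkQ ∘ₗ (L i) ∘ₗ S.subtype))) + finrank F W + finrank F (V ⧸ S) := by
    intro z
    have : W.mkQ ∘ₗ (L0 + ∑ i, z i • L i) ∘ₗ S.subtype = (W.mkQ ∘ₗ L0 ∘ₗ S.subtype) +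
        ∑ i, z i • (W.mkQ ∘ₗ (L i) ∘ₗ S.subtype) := by
      ext w
      simp only [LinearMap.comp_apply, LinearMap.add_apply, map_add, LinearMap.sum_apply, map_sum,
        LinearMap.smul_apply, map_smul]
    rw [val_eq, this]
  rw [key] at h
  obtain ⟨a, ha, ha2⟩ := hit_linear (W.mkQ ∘ₗ L0 ∘ₗ S.subtype)
    (fun i => W.mkQ ∘ₗ (L i) ∘ₗ S.subtype) x
    (show r - (finrank F W + finrank F (V ⧸ S)) ≤ _ by omega)
  refine ⟨a, ha, ?_⟩
  rw [key]
  omega

end hit

end Pool.Agent.H53.Edm
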