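import Mathlib
import Pool.Agent.H53.Edm.Hit

set_option autoImplicit false

/-!
# Size and monotonicity of the explicit set of points
-/

namespace Pool.Agent.H53.Edm

open Finset

/-- the finite set of points -/
noncomputable def hitFinset (n c : ℕ) : Finset (Fin n → ℕ) :=
  ((Finset.range (c ^ 2 * n + 1)) ×ˢ
    ((Finset.univ : Finset (Option (Fin (c ^ 2)))).finsuppAntidiag c)).image
    (fun q => fun i : Fin n => q.1 ^ (i : ℕ) *
      ∑ j : Fin (c ^ 2), ((i : ℕ) + 1) ^ (j : ℕ) * q.2 (some j))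

lemma hitSet_subset (n c : ℕ) : hitSet n c ⊆ (hitFinset n c : Set (Fin n → ℕ)) := by
  classical
  rintro a ⟨g, hg, y, hy, ha⟩
  rw [hitFinset, Finset.coe_image]
  refine ⟨(g, Finsupp.equivFunOnFinite.symm (fun o => Option.elim o (c - ∑ j, y j) y)), ?_, ?_⟩
  · simp only [Finset.coe_product, Set.mem_prod, Finset.mem_coe, Finset.mem_range,
      Finset.mem_finsuppAntidiag, Finset.subset_univ, and_true]
    refine ⟨Nat.lt_succ_of_le hg, ?_⟩
    simp only [Finsupp.equivFunOnFinite_symm_apply_apply, Fintype.sum_option, Option.elim]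
    omega
  · funext i
    rw [ha i]
    simp

lemma hitSet_finite (n c : ℕ) : (hitSet n c).Finite :=
  (hitFinset n c).finite_toSet.subset (hitSet_subset n c)

theorem hitSet_ncard_le (n c : ℕ) :
    (hitSet n c).ncard ≤ (c ^ 2 * n + 1) * (c ^ 2 + c).choose c := by
  classical
  refine (Set.ncard_le_ncard (hitSet_subset n c) (Finset.finite_toSet _)).trans ?_
  rw [Set.ncard_coe_finset]
  refine Finset.card_image_le.trans ?_
  rw [Finset.card_product, Finset.card_range, Finset.card_finsuppAntidiag_nat_eq_choose]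
  have : (Finset.univ : Finset (Option (Fin (c ^ 2)))).card + c - 1 = c ^ 2 + c := by
    simp
  rw [this]

theorem hitSet_entry_le (n c : ℕ) (a : Fin n → ℕ) (ha : a ∈ hitSet n c) (i : Fin n) :
    a i ≤ (c ^ 2 * n) ^ n * (n ^ (c ^ 2) * c) := by
  obtain ⟨g, hg, y, hy, ha⟩ := ha
  rw [ha i]
  have hn : 1 ≤ n := by have := i.2; omega
  rcases Nat.eq_zero_or_pos c with rfl | hc
  · simp
  have h1 : 1 ≤ c ^ 2 * n := Nat.one_le_iff_ne_zero.2 (by positivity)
  refine Nat.mul_le_mul ?_ ?_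
  · exact (Nat.pow_le_pow_left hg _).trans (Nat.pow_le_pow_right h1 i.2.le)
  · calc ∑ j : Fin (c ^ 2), ((i : ℕ) + 1) ^ (j : ℕ) * y j
        ≤ ∑ j : Fin (c ^ 2), n ^ (c ^ 2) * y j := by
          refine Finset.sum_le_sum fun j _ => Nat.mul_le_mul_right _ ?_
          exact (Nat.pow_le_pow_left (Nat.succ_le_of_lt i.2) _).trans
            (Nat.pow_le_pow_right hn j.2.le)
      _ = n ^ (c ^ 2) * ∑ j, y j := by rw [Finset.mul_sum]
      _ ≤ n ^ (c ^ 2) * c := Nat.mul_le_mul_left _ hy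

lemma sum_extend {N N' : ℕ} (h : N ≤ N') (f : ℕ → ℕ) (y : Fin N → ℕ) :
    ∑ j : Fin N', f j * (if hj : (j : ℕ) < N then y ⟨j, hj⟩ else 0) = ∑ j : Fin N, f j * y j := by
  have e1 := Fin.sum_univ_eq_sum_range
    (fun j => f j * (if hj : j < N then y ⟨j, hj⟩ else 0)) N'
  have e2 := Fin.sum_univ_eq_sum_range
    (fun j => f j * (if hj : j < N then y ⟨j, hj⟩ else 0)) N
  have e3 : ∑ j ∈ Finset.range N, f j * (if hj : j < N then y ⟨j, hj⟩ else 0) =
      ∑ j ∈ Finset.range N', f j * (if hj : j < N then y ⟨j, hj⟩ else 0) := by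
    apply Finset.sum_subset (Finset.range_mono h)
    intro j _ hj
    rw [Finset.mem_range] at hj
    simp [hj]
  rw [e1, ← e3, ← e2]
  refine Finset.sum_congr rfl fun j _ => ?_
  simp

theorem hitSet_mono {n c c' : ℕ} (h : c ≤ c') : hitSet n c ⊆ hitSet n c' := by
  rintro a ⟨g, hg, y, hy, ha⟩
  have hsq : c ^ 2 ≤ c' ^ 2 := Nat.pow_le_pow_left h 2
  refine ⟨g, hg.trans (Nat.mul_le_mul_right _ hsq),
    fun j => if hj : (j : ℕ) < c ^ 2 then y ⟨j, hj⟩ else 0, ?_, ?_⟩
  · have := sum_extend hsq (fun _ => 1) y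
    simp only [one_mul] at this
    rw [this]
    exact hy.trans h
  · intro i
    rw [ha i]
    rw [sum_extend hsq (fun j => ((i : ℕ) + 1) ^ j) y]

end Pool.Agent.H53.Edm
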