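import Mathlib
import Pool.Agent.H53.Edm.MaxMax
import Pool.Agent.H53.Edm.Size

set_option autoImplicit false

/-!
# Matrices `B₀ + ∑ xᵢ Bᵢ + ∑ yⱼ uⱼ vⱼᵀ`: certificates for generic rank
-/

namespace Pool.Agent.H53.Edm

open Module Submodule Matrix

variable {F : Type*} [Field F] {m k : Type*} [Fintype m] [Fintype k]

/-- The matrix `B₀ + ∑ xᵢ Bᵢ + ∑ yⱼ uⱼ vⱼᵀ`, with polynomial entries in the variables
`xᵢ = X (inl i)` and `yⱼ = X (inr j)`. -/
noncomputable def mixedMatrix {n p : ℕ} (B0 : Matrix m k F) (B : Fin n → Matrix m k F)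
    (u : Fin p → m → F) (v : Fin p → k → F) : Matrix m k (MvPolynomial (Fin n ⊕ Fin p) F) :=
  Matrix.of fun a b => MvPolynomial.C (B0 a b)
    + ∑ i, MvPolynomial.X (Sum.inl i) * MvPolynomial.C (B i a b)
    + ∑ j, MvPolynomial.X (Sum.inr j) * MvPolynomial.C (u j a * v j b)

/-- The rank over the field of rational functions. -/
noncomputable def symRank {σ : Type*} (M : Matrix m k (MvPolynomial σ F)) : ℕ :=
  (M.map (algebraMap (MvPolynomial σ F) (FractionRing (MvPolynomial σ F)))).rank

/-- The value `B₀ + ∑ aᵢ Bᵢ` at a point with natural number coordinates. -/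
def valueAt {n : ℕ} (B0 : Matrix m k F) (B : Fin n → Matrix m k F) (a : Fin n → ℕ) :
    Matrix m k F :=
  B0 + ∑ i, (a i : F) • B i

/-- The matrix with columns `u j` for `j ∈ J` and zero columns for `j ∉ J`. -/
def colPart {p : ℕ} (u : Fin p → m → F) (J : Finset (Fin p)) : Matrix m (Fin p) F :=
  Matrix.of fun a j => if j ∈ J then u j a else 0

/-- The matrix with rows `v j` for `j ∉ J` and zero rows for `j ∈ J`. -/
def rowPart {p : ℕ} (v : Fin p → k → F) (J : Finset (Fin p)) : Matrix (Fin p) k F :=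
  Matrix.of fun j b => if j ∈ J then 0 else v j b

/-- The bordered matrix with blocks `B₀ + ∑ aᵢ Bᵢ`, `U_J`, `V_J`, `0`. -/
def bordered {n p : ℕ} (B0 : Matrix m k F) (B : Fin n → Matrix m k F)
    (u : Fin p → m → F) (v : Fin p → k → F) (J : Finset (Fin p)) (a : Fin n → ℕ) :
    Matrix (m ⊕ Fin p) (k ⊕ Fin p) F :=
  Matrix.fromBlocks (valueAt B0 B a) (colPart u J) (rowPart v J) 0

/-- the functional `w ↦ v ⬝ w` -/
def dotL (v : k → F) : (k → F) →ₗ[F] F where
  toFun w := v ⬝ᵥ w
  map_add' := dotProduct_add _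
  map_smul' := fun c w => by simp [dotProduct_smul]

omit [Fintype m] in
lemma rank_fromBlocks_zero {p : Type*} [Fintype p] (A : Matrix m k F) (U : Matrix m p F)
    (Vm : Matrix p k F) :
    (Matrix.fromBlocks A U Vm (0 : Matrix p p F)).rank =
      val A.mulVecLin (LinearMap.ker Vm.mulVecLin) (LinearMap.range U.mulVecLin) := by
  classical
  set N := (Matrix.fromBlocks A U Vm (0 : Matrix p p F)).mulVecLin with hN
  have hNapp : ∀ z, N z = Sum.elim (A *ᵥ (z ∘ Sum.inl) + U *ᵥ (z ∘ Sum.inr))
      (Vm *ᵥ (z ∘ Sum.inl)) := by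
    intro z
    rw [hN, Matrix.mulVecLin_apply, Matrix.fromBlocks_mulVec]
    simp
  -- the second projection
  let π : (m ⊕ p → F) →ₗ[F] (p → F) := LinearMap.funLeft F F Sum.inr
  let ι : (m → F) →ₗ[F] (m ⊕ p → F) :=
    { toFun := fun y => Sum.elim y 0
      map_add' := by intro x y; ext (i | i) <;> simp
      map_smul' := by intro c x; ext (i | i) <;> simp }
  have hι : Function.Injective ι := by
    intro x y hxy
    funext i
    exact congrFun hxy (Sum.inl i)
  have hπ : ∀ z, π z = z ∘ Sum.inr := fun z => rfl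
  have e1 := LinearMap.finrank_range_add_finrank_ker (π.domRestrict (LinearMap.range N))
  have e2 : LinearMap.range (π.domRestrict (LinearMap.range N)) = LinearMap.range Vm.mulVecLin := by
    rw [LinearMap.range_domRestrict, ← LinearMap.range_comp]
    apply le_antisymm
    · rintro _ ⟨z, rfl⟩
      refine ⟨z ∘ Sum.inl, ?_⟩
      rw [LinearMap.comp_apply, hNapp, hπ]
      rfl
    · rintro _ ⟨w, rfl⟩
      refine ⟨Sum.elim w 0, ?_⟩
      rw [LinearMap.comp_apply, hNapp, hπ]
      rfl
  have e3 : finrank F (LinearMap.ker (π.domRestrict (LinearMap.range N))) =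
      finrank F ((LinearMap.ker Vm.mulVecLin).map A.mulVecLin ⊔ LinearMap.range U.mulVecLin :
        Submodule F (m → F)) := by
    rw [LinearMap.ker_domRestrict, ← Submodule.finrank_map_subtype_eq (LinearMap.range N),
      Submodule.map_comap_subtype]
    have : LinearMap.range N ⊓ LinearMap.ker π =
        ((LinearMap.ker Vm.mulVecLin).map A.mulVecLin ⊔ LinearMap.range U.mulVecLin).map ι := by
      apply le_antisymm
      · rintro _ ⟨⟨z, rfl⟩, hz⟩
        have h0 : Vm *ᵥ (z ∘ Sum.inl) = 0 := by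
          have := LinearMap.mem_ker.1 hz
          rw [hNapp, hπ] at this
          exact this
        refine ⟨A *ᵥ (z ∘ Sum.inl) + U *ᵥ (z ∘ Sum.inr), ?_, ?_⟩
        · exact Submodule.add_mem_sup ⟨z ∘ Sum.inl, h0, rfl⟩ ⟨z ∘ Sum.inr, rfl⟩
        · rw [hNapp, h0]
          rfl
      · rintro _ ⟨y, hy, rfl⟩
        obtain ⟨y1, ⟨w, hw, rfl⟩, y2, ⟨z, rfl⟩, rfl⟩ := Submodule.mem_sup.1 hy
        have hw' : Vm *ᵥ w = 0 := hw
        refine ⟨⟨Sum.elim w z, ?_⟩, ?_⟩
        · rw [hNapp]
          have h1 : (Sum.elim w z : k ⊕ p → F) ∘ Sum.inl = w := rfl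
          have h2 : (Sum.elim w z : k ⊕ p → F) ∘ Sum.inr = z := rfl
          rw [h1, h2, hw']
          rfl
        · rfl
    rw [this]
    exact (Submodule.equivMapOfInjective ι hι _).finrank_eq.symm
  have e4 : finrank F ((k → F) ⧸ LinearMap.ker Vm.mulVecLin) =
      finrank F (LinearMap.range Vm.mulVecLin) :=
    (LinearMap.quotKerEquivRange _).finrank_eq
  rw [e2, e3] at e1
  rw [val, e4, Matrix.rank, ← hN, ← e1, add_comm]

omit [Fintype m] in
lemma range_colPart {p : ℕ} (u : Fin p → m → F) (J : Finset (Fin p)) :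
    LinearMap.range (colPart u J).mulVecLin = span F (u '' (J : Set (Fin p))) := by
  classical
  rw [Matrix.range_mulVecLin]
  apply le_antisymm
  · rw [Submodule.span_le]
    rintro _ ⟨j, rfl⟩
    by_cases hj : j ∈ J
    · refine Submodule.subset_span ⟨j, hj, ?_⟩
      ext a
      simp [colPart, hj]
    · have : (colPart u J).col j = 0 := by
        ext a
        simp [colPart, hj]
      rw [this]
      exact Submodule.zero_mem _
  · rw [Submodule.span_le]
    rintro _ ⟨j, hj, rfl⟩
    refine Submodule.subset_span ⟨j, ?_⟩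
    ext a
    have : j ∈ J := hj
    simp [colPart, this]

lemma ker_rowPart {p : ℕ} (v : Fin p → k → F) (J : Finset (Fin p)) :
    LinearMap.ker (rowPart v J).mulVecLin = kerOut Finset.univ J (fun j => dotL (v j)) := by
  classical
  ext w
  rw [mem_kerOut, LinearMap.mem_ker, Matrix.mulVecLin_apply, funext_iff]
  constructor
  · intro h j _ hj
    have := h j
    simp only [rowPart, Matrix.mulVec, Matrix.of_apply, hj, if_false, Pi.zero_apply] at this
    exact this
  · intro h j
    by_cases hj : j ∈ J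
    · simp [rowPart, Matrix.mulVec, dotProduct, hj]
    · have := h j (Finset.mem_univ _) hj
      simp only [rowPart, Matrix.mulVec, Matrix.of_apply, hj, if_false, Pi.zero_apply]
      exact this

lemma rank_bordered {n p : ℕ} (B0 : Matrix m k F) (B : Fin n → Matrix m k F)
    (u : Fin p → m → F) (v : Fin p → k → F) (J : Finset (Fin p)) (a : Fin n → ℕ) :
    (bordered B0 B u v J a).rank = val (valueAt B0 B a).mulVecLin
      (kerOut Finset.univ J (fun j => dotL (v j))) (span F (u '' (J : Set (Fin p)))) := by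
  rw [bordered, rank_fromBlocks_zero, range_colPart, ker_rowPart]

lemma rank_colPart {p : ℕ} (u : Fin p → m → F) (J : Finset (Fin p)) :
    (colPart u J).rank = finrank F (span F (u '' (J : Set (Fin p)))) := by
  rw [Matrix.rank, range_colPart]

lemma rank_rowPart {p : ℕ} (v : Fin p → k → F) (J : Finset (Fin p)) :
    (rowPart v J).rank =
      finrank F ((k → F) ⧸ kerOut Finset.univ J (fun j => dotL (v j))) := by
  rw [← ker_rowPart, Matrix.rank]
  exact (LinearMap.quotKerEquivRange _).finrank_eq.symm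

/-! ### evaluation -/

/-- the matrix value as linear map -/
lemma eval_mixed {n p : ℕ} (B0 : Matrix m k F) (B : Fin n → Matrix m k F)
    (u : Fin p → m → F) (v : Fin p → k → F) (x : Fin n → F) (y : Fin p → F) :
    ((mixedMatrix B0 B u v).map (MvPolynomial.eval (Sum.elim x y))).mulVecLin =
      (B0.mulVecLin + ∑ i, x i • (B i).mulVecLin) +
        rkOneSum Finset.univ u (fun j => dotL (v j)) y := by
  classical
  have hM : (mixedMatrix B0 B u v).map (MvPolynomial.eval (Sum.elim x y)) =
      B0 + ∑ i, x i • B i + ∑ j, y j • Matrix.vecMulVec (u j) (v j) := by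
    ext a b
    simp [mixedMatrix, Matrix.sum_apply, Matrix.vecMulVec_apply]
  rw [hM]
  refine LinearMap.ext fun w => ?_
  simp only [Matrix.mulVecLin_apply, Matrix.add_mulVec, Matrix.sum_mulVec, Matrix.smul_mulVec,
    LinearMap.add_apply, LinearMap.sum_apply, LinearMap.smul_apply, rkOneSum, LinearMap.coe_mk,
    AddHom.coe_mk, LinearMap.smulRight_apply, dotL]
  congr 1
  refine Finset.sum_congr rfl fun j _ => ?_
  congr 1
  ext a
  simp [Matrix.mulVec, Matrix.vecMulVec_apply, dotProduct, mul_comm, mul_left_comm,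
    Finset.mul_sum]

omit [Fintype m] in
lemma valueAt_mulVecLin {n : ℕ} (B0 : Matrix m k F) (B : Fin n → Matrix m k F)
    (a : Fin n → ℕ) : (valueAt B0 B a).mulVecLin =
      B0.mulVecLin + ∑ i, (a i : F) • (B i).mulVecLin := by
  refine LinearMap.ext fun w => ?_
  simp only [valueAt, Matrix.mulVecLin_apply, Matrix.add_mulVec, Matrix.sum_mulVec,
    Matrix.smul_mulVec, LinearMap.add_apply, LinearMap.sum_apply, LinearMap.smul_apply]

lemma le_symRank_iff [Infinite F] {σ : Type*} (M : Matrix m k (MvPolynomial σ F)) (r : ℕ) :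
    r ≤ symRank M ↔ ∃ z : σ → F, r ≤ (M.map (MvPolynomial.eval z)).rank := by
  constructor
  · intro h
    obtain ⟨f, g, hfg⟩ := (Pool.Agent.H20.Edm.sym_minor_iff M r).1 h
    obtain ⟨z, hz⟩ : ∃ z : σ → F, MvPolynomial.eval z (M.submatrix f g).det ≠ 0 := by
      by_contra hcon
      push Not at hcon
      exact hfg (MvPolynomial.funext (by simpa using hcon))
    refine ⟨z, Pool.Agent.H20.Edm.le_rank_of_minor _ f g ?_⟩
    rw [Pool.Agent.H20.Edm.eval_minor]
    exact hz
  · rintro ⟨z, hz⟩
    exact hz.trans (Pool.Agent.H20.Edm.rank_eval_le M z)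

lemma le_symRank_mixed_iff [Infinite F] {n p : ℕ} (B0 : Matrix m k F) (B : Fin n → Matrix m k F)
    (u : Fin p → m → F) (v : Fin p → k → F) (r : ℕ) :
    r ≤ symRank (mixedMatrix B0 B u v) ↔ ∃ (x : Fin n → F) (y : Fin p → F),
      r ≤ finrank F (LinearMap.range ((B0.mulVecLin + ∑ i, x i • (B i).mulVecLin) +
        rkOneSum Finset.univ u (fun j => dotL (v j)) y)) := by
  rw [le_symRank_iff]
  constructor
  · rintro ⟨z, hz⟩
    refine ⟨fun i => z (Sum.inl i), fun j => z (Sum.inr j), ?_⟩
    rw [← eval_mixed]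
    have : Sum.elim (fun i => z (Sum.inl i)) (fun j => z (Sum.inr j)) = z := by
      ext (i | j) <;> rfl
    rw [this]
    exact hz
  · rintro ⟨x, y, h⟩
    refine ⟨Sum.elim x y, ?_⟩
    rw [← eval_mixed] at h
    exact h

/-- the linear part as a linear map of the parameter -/
noncomputable def linPart {n : ℕ} (B : Fin n → Matrix m k F) :
    (Fin n → F) →ₗ[F] (k → F) →ₗ[F] (m → F) where
  toFun x := ∑ i, x i • (B i).mulVecLin
  map_add' x y := by simp [add_smul, Finset.sum_add_distrib]
  map_smul' c x := by simp [mul_smul, Finset.smul_sum]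

/-- Part (a): the min-max certificate -/
theorem symRank_lt_iff [CharZero F] {n p : ℕ} (B0 : Matrix m k F) (B : Fin n → Matrix m k F)
    (u : Fin p → m → F) (v : Fin p → k → F) (r : ℕ) :
    symRank (mixedMatrix B0 B u v) < r ↔ ∃ J : Finset (Fin p),
      ∀ a ∈ hitSet n (r - ((colPart u J).rank + (rowPart v J).rank)),
        (bordered B0 B u v J a).rank < r := by
  classical
  have hinf : Infinite F := CharZero.infinite F
  constructor
  · intro h
    by_contra hcon
    push Not at hcon
    -- for every `J` there is a good point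
    have h1 : ∀ J ∈ (Finset.univ : Finset (Finset (Fin p))), ∃ x : Fin n → F,
        r ≤ val (B0.mulVecLin + linPart B x)
          (kerOut Finset.univ J (fun j => dotL (v j))) (span F (u '' (J : Set (Fin p)))) := by
      intro J _
      obtain ⟨a, _, ha⟩ := hcon J
      refine ⟨fun i => (a i : F), ?_⟩
      rw [rank_bordered, valueAt_mulVecLin] at ha
      exact ha
    obtain ⟨x, hx⟩ := exists_common_finset (F := F) Finset.univ _
      (fun J _ => lineOpen_val B0.mulVecLin (linPart B)
        (kerOut Finset.univ J (fun j => dotL (v j))) (span F (u '' (J : Set (Fin p)))) r) h1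
    obtain ⟨y, hy⟩ := fixed_minmax Finset.univ (B0.mulVecLin + linPart B x) u
      (fun j => dotL (v j)) r (fun J _ => hx J (Finset.mem_univ _))
    exact absurd h (not_lt.2 ((le_symRank_mixed_iff B0 B u v r).2 ⟨x, y, hy⟩))
  · rintro ⟨J, hJ⟩
    by_contra hcon
    obtain ⟨x, y, hxy⟩ := (le_symRank_mixed_iff B0 B u v r).1 (not_lt.1 hcon)
    have h1 := hxy.trans (rank_le_val Finset.univ J _ u (fun j => dotL (v j)) y)
    obtain ⟨a, ha, ha2⟩ := hit_val B0.mulVecLin (fun i => (B i).mulVecLin) _ _ x h1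
    rw [← rank_colPart, ← rank_rowPart] at ha
    have h2 := hJ a ha
    rw [rank_bordered, valueAt_mulVecLin] at h2
    omega

lemma finrank_range_comp_le {V0 V V' V1 : Type*} [AddCommGroup V0] [Module F V0]
    [AddCommGroup V] [Module F V] [AddCommGroup V'] [Module F V'] [AddCommGroup V1] [Module F V1]
    [FiniteDimensional F V'] (P : V' →ₗ[F] V1) (A : V →ₗ[F] V') (Q : V0 →ₗ[F] V) :
    finrank F (LinearMap.range (P ∘ₗ A ∘ₗ Q)) ≤ finrank F (LinearMap.range A) := by
  have h1 : LinearMap.range (P ∘ₗ A ∘ₗ Q) ≤ (LinearMap.range A).map P := by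
    rintro _ ⟨w, rfl⟩
    exact ⟨A (Q w), ⟨Q w, rfl⟩, rfl⟩
  exact (Submodule.finrank_mono h1).trans (Submodule.finrank_map_le _ _)

/-- Part (b): the points of `hitSet n s` suffice for the `x` variables -/
theorem le_symRank_iff_hit [CharZero F] {n p : ℕ} (B0 : Matrix m k F) (B : Fin n → Matrix m k F)
    (u : Fin p → m → F) (v : Fin p → k → F) (r s : ℕ)
    (hs : symRank (mixedMatrix B0 B (Fin.elim0 : Fin 0 → m → F) (Fin.elim0 : Fin 0 → k → F)) ≤ s) :
    r ≤ symRank (mixedMatrix B0 B u v) ↔ ∃ a ∈ hitSet n s,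
      r ≤ symRank (mixedMatrix (valueAt B0 B a) (Fin.elim0 : Fin 0 → Matrix m k F) u v) := by
  classical
  have hinf : Infinite F := CharZero.infinite F
  constructor
  · intro h
    obtain ⟨x, y, hxy⟩ := (le_symRank_mixed_iff B0 B u v r).1 h
    obtain ⟨K, _, hK⟩ := exists_border Finset.univ u (fun j => dotL (v j)) r y _ hxy
    have hrank : finrank F (LinearMap.range (B0.mulVecLin + ∑ i, x i • (B i).mulVecLin)) ≤ s := by
      refine le_trans ?_ hs
      rw [le_symRank_mixed_iff]
      refine ⟨x, Fin.elim0, ?_⟩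
      have : rkOneSum (Finset.univ : Finset (Fin 0)) (Fin.elim0 : Fin 0 → m → F)
          (fun j => dotL ((Fin.elim0 : Fin 0 → k → F) j)) Fin.elim0 = 0 := by
        simp [rkOneSum]
      rw [this, add_zero]
    obtain ⟨a, ha, ha2⟩ := hit_val B0.mulVecLin (fun i => (B i).mulVecLin) _ _ x hK
    refine ⟨a, hitSet_mono ?_ ha, ?_⟩
    · rw [val_eq] at hK
      have := finrank_range_comp_le (span F (u '' (K : Set (Fin p)))).mkQ
        (B0.mulVecLin + ∑ i, x i • (B i).mulVecLin) (kerIn K fun j => dotL (v j)).subtype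
      omega
    · obtain ⟨b, hb⟩ := exists_of_border K _ u (fun j => dotL (v j)) r ha2
      rw [le_symRank_mixed_iff]
      refine ⟨Fin.elim0, fun j => if j ∈ K then b j else 0, ?_⟩
      have e1 : (valueAt B0 B a).mulVecLin + ∑ i : Fin 0, (Fin.elim0 : Fin 0 → F) i •
          ((Fin.elim0 : Fin 0 → Matrix m k F) i).mulVecLin =
          B0.mulVecLin + ∑ i, (a i : F) • (B i).mulVecLin := by
        rw [valueAt_mulVecLin]
        simp
      have e2 : rkOneSum Finset.univ u (fun j => dotL (v j)) (fun j => if j ∈ K then b j else 0) =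
          rkOneSum K u (fun j => dotL (v j)) b := by
        simp only [rkOneSum, LinearMap.coe_mk, AddHom.coe_mk, ite_smul, zero_smul]
        rw [Finset.sum_ite_mem, Finset.univ_inter]
      rw [e1, e2]
      exact hb
  · rintro ⟨a, _, ha⟩
    obtain ⟨x0, y, hy⟩ := (le_symRank_mixed_iff _ _ u v r).1 ha
    have e0 : ∑ i : Fin 0, x0 i • ((Fin.elim0 : Fin 0 → Matrix m k F) i).mulVecLin = 0 := by
      simp
    rw [e0, add_zero] at hy
    rw [le_symRank_mixed_iff]
    refine ⟨fun i => (a i : F), y, ?_⟩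
    have e1 : (valueAt B0 B a).mulVecLin = B0.mulVecLin + ∑ i, (a i : F) • (B i).mulVecLin :=
      valueAt_mulVecLin B0 B a
    rw [← e1]
    exact hy

end Pool.Agent.H53.Edm
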